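import Mathlib
import Pool.Agent.K1H6.LC.Fin
import Pool.Agent.Y667.SX.Main
import Pool.Agent.Y667.RP.Disc
import Pool.Agent.W672.FK.Lowf
import Pool.Agent.W307.RT.Tors
import Pool.Agent.Y679.Cr.Conv
import Pool.Agent.Y679.Cr.Dens

/-!
# Ranks zero and one with prescribed reductions

All elliptic curves `E` over `ℚ` with full rational 2-torsion, ordered by the naive height, by the
minimal discriminant or by the conductor. For every odd `M` and all classes `α`, `β` modulo `M` such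
that `α`, `β`, `α - β` are invertible modulo `M`, a positive proportion of the curves is
`y² = (x - e₁) (x - e₂) (x - e₃)` with `e₂ - e₁ ≡ α`, `e₃ - e₁ ≡ β` modulo `M` (the good reductions at
the primes of `M` are prescribed, even modulo prime powers) and has 2-Selmer group of order 4, rank
0, `Ш(E)[2] = 0` and root number `+1`; and a positive proportion has the same reductions, 2-Selmer
group of order 8, rank at most 1 and root number `-1`.
-/

namespace Pool.Agent.Results.MP_6073f3_nt.PrescribedReductions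

open Finset Filter Topology

open Pool.Agent.TH841.SH.D (Sha)

open Pool.Agent.Y667.SX (Sel2H)

/-- the curve `y² = x³ + A x + B` over `ℚ` -/
def E (A B : ℤ) : WeierstrassCurve ℚ := ⟨0, 0, 0, (A : ℚ), (B : ℚ)⟩

/-- the absolute value of the minimal discriminant of an elliptic curve `W` over `ℚ`: the smallest
absolute value of the discriminant of a Weierstrass equation `V` with integer coefficients which is
isomorphic to `W` over `ℚ` -/
noncomputable def minDisc (W : WeierstrassCurve ℚ) : ℕ :=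
  sInf {n : ℕ | ∃ (V : WeierstrassCurve ℤ) (C : WeierstrassCurve.VariableChange ℚ),
    C • W = V.map (Int.castRingHom ℚ) ∧ n = V.Δ.natAbs}

/-- The prime-to-6 part of the conductor of `y² = x³ + A x + B` (there is no prime `p` with `p⁴ ∣ A`
and `p⁶ ∣ B`): the product over the primes `p ≥ 5` dividing `4 A³ + 27 B²` of `p` (multiplicative
reduction: `p ∤ A`) or `p²` (additive reduction: `p ∣ A`) -/
def Cond6 (c : ℤ × ℤ) : ℕ :=
  ∏ p ∈ (Int.natAbs (4 * c.1 ^ 3 + 27 * c.2 ^ 2)).primeFactors.filter (fun p => 5 ≤ p),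
    if (p : ℤ) ∣ c.1 then p ^ 2 else p

/-- the admissible factors: functions with values between `1` and `2 ^ 8 * 3 ^ 5`, for instance the
part of the conductor composed of the primes 2 and 3, or `f = 1` -/
def Factor (f : ℤ × ℤ → ℕ) : Prop := ∀ c, 1 ≤ f c ∧ f c ≤ 2 ^ 8 * 3 ^ 5

/-- the naive height of `y² = x³ + A x + B` is at most `Z` -/
def HeightLe (c : ℤ × ℤ) (Z : ℕ) : Prop := 4 * |c.1| ^ 3 ≤ Z ∧ 27 * c.2 ^ 2 ≤ Z

/-- the minimal discriminant of `y² = x³ + A x + B` is at most `Z` in absolute value -/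
def DiscLe (c : ℤ × ℤ) (Z : ℕ) : Prop := minDisc (E c.1 c.2) ≤ Z

/-- the prime-to-6 part of the conductor of `y² = x³ + A x + B` times the factor `f` is at most `Z`
(for a suitable factor `f`: the conductor is at most `Z`) -/
def CondLe (f : ℤ × ℤ → ℕ) (c : ℤ × ℤ) (Z : ℕ) : Prop := f c * Cond6 c ≤ Z

/-- the orderings: by the naive height, by the minimal discriminant, by the conductor (up to an
arbitrary bounded factor) -/
def Ordering3 (I : ℤ × ℤ → ℕ → Prop) : Prop :=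
  I = HeightLe ∨ I = DiscLe ∨ ∃ f : ℤ × ℤ → ℕ, Factor f ∧ I = CondLe f

/-- The pairs `(A, B)` of integers such that `4 A³ + 27 B² ≠ 0`, there is no prime `p` with
`p⁴ ∣ A` and `p⁶ ∣ B`, `Z/2 x Z/2` embeds in the group of the rational points of
`y² = x³ + A x + B`, and the size is at most `Z`. Every elliptic curve over `ℚ` with full rational
2-torsion is isomorphic to `E A B` for exactly one pair with the first three properties. -/
def Fam (I : ℤ × ℤ → ℕ → Prop) (Z : ℕ) : Set (ℤ × ℤ) :=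
  {c : ℤ × ℤ | 4 * c.1 ^ 3 + 27 * c.2 ^ 2 ≠ 0 ∧
    (∀ p : ℕ, p.Prime → ¬ ((p : ℤ) ^ 4 ∣ c.1 ∧ (p : ℤ) ^ 6 ∣ c.2)) ∧
    (∃ f : ZMod 2 × ZMod 2 →+ (E c.1 c.2).toAffine.Point, Function.Injective f) ∧ I c Z}

/-- the proportion of the curves of `S` among the curves of size at most `Z` -/
noncomputable def proportion (I : ℤ × ℤ → ℕ → Prop) (S : Set (ℤ × ℤ)) (Z : ℕ) : ℝ :=
  ((Fam I Z ∩ S).ncard : ℝ) / (Fam I Z).ncard

/-- the Mordell-Weil rank -/
noncomputable def rank (c : ℤ × ℤ) : ℕ := Module.finrank ℤ (E c.1 c.2).toAffine.Point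

/-- `a_p = p + 1 - #V(𝔽_p)`, that is `p` minus the number of the affine solutions of the Weierstrass
equation modulo `p`; for a prime of multiplicative reduction this is `1` (split) or `-1`
(non-split) -/
noncomputable def ap (V : WeierstrassCurve ℤ) (p : ℕ) : ℤ :=
  p - Nat.card {z : ZMod p × ZMod p // z.2 ^ 2 + V.a₁ * z.1 * z.2 + V.a₃ * z.2 =
    z.1 ^ 3 + V.a₂ * z.1 ^ 2 + V.a₄ * z.1 + V.a₆}

/-- the equation with integer coefficients is nonsingular over `ℚ` and at every prime the reduction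
is good or multiplicative (then it is a minimal equation) -/
def Semistable (V : WeierstrassCurve ℤ) : Prop :=
  V.Δ ≠ 0 ∧ ∀ p : ℕ, p.Prime → (p : ℤ) ∣ V.Δ → ¬ (p : ℤ) ∣ V.c₄

/-- the conductor of a semistable curve -/
def conductor (V : WeierstrassCurve ℤ) : ℕ := ∏ p ∈ V.Δ.natAbs.primeFactors, p

/-- The root number of a semistable curve: the product of the local root numbers `-1` at infinity
and `-a_p` at the primes of bad (multiplicative) reduction. -/
noncomputable def wSemi (V : WeierstrassCurve ℤ) : ℤ :=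
  -∏ p ∈ V.Δ.natAbs.primeFactors, (-ap V p)

/-- the quadratic twist by `d` of the curve `V` (the curve `y² = x³ + b₂ x² + 8 b₄ x + 16 b₆`) -/
def twist (V : WeierstrassCurve ℤ) (d : ℕ) : WeierstrassCurve ℚ :=
  ⟨0, (d : ℚ) * V.b₂, 0, 8 * (d : ℚ) ^ 2 * V.b₄, 16 * (d : ℚ) ^ 3 * V.b₆⟩

/-- `w` is the root number of `W`, for the quadratic twists `W` of a semistable curve `V` of conductor
`N` by a positive fundamental discriminant `d ≡ 1` modulo `4` prime to `N` (`d = 1` allowed): it is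
`χ_d(-N) w_V`, where `χ_d(-N) = χ_d(N)` is the Jacobi symbol `(N / d)` -/
def HasRootNumber (W : WeierstrassCurve ℚ) (w : ℤ) : Prop :=
  ∃ (V : WeierstrassCurve ℤ) (d : ℕ), Semistable V ∧ Squarefree d ∧ d % 4 = 1 ∧
    d.Coprime V.Δ.natAbs ∧ (∃ C : WeierstrassCurve.VariableChange ℚ, C • W = twist V d) ∧
    w = jacobiSym (conductor V) d * wSemi V

/-- The residue class: `x³ + A x + B = (x - e₁) (x - e₂) (x - e₃)` with integers `e₁`, `e₂`, `e₃`,
`e₂ - e₁ ≡ α` and `e₃ - e₁ ≡ β` modulo `M`. If `α`, `β`, `α - β` are prime to the odd number `M`,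
then `E` has good reduction at the primes `p` of `M`, and its reduction is the curve
`y² = x (x - α) (x - β)` over `𝔽_p`. -/
def Class (M : ℕ) (α β : ℤ) : Set (ℤ × ℤ) :=
  {c | ∃ e₁ e₂ e₃ : ℤ, (∀ x : ℤ, x ^ 3 + c.1 * x + c.2 = (x - e₁) * (x - e₂) * (x - e₃)) ∧
    (M : ℤ) ∣ e₂ - e₁ - α ∧ (M : ℤ) ∣ e₃ - e₁ - β}

/-- the curves with 2-Selmer group `Sel₂(E) = ker (H¹(ℚ, E[2]) → ∏ H¹(ℚ_v, E))` of order 4,
rank 0, trivial `Ш(E)[2]` and root number `1` -/
def RankZero : Set (ℤ × ℤ) :=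
  {c | Nat.card (Sel2H (E c.1 c.2)) = 4 ∧ rank c = 0 ∧
    Nat.card {x : Sha (E c.1 c.2) // x + x = 0} = 1 ∧ HasRootNumber (E c.1 c.2) 1}

/-- the curves with 2-Selmer group of order 8, `2 ^ rank * |Ш(E)[2]| = 2` (in particular
`rank ≤ 1`) and root number `-1` -/
def RankOne : Set (ℤ × ℤ) :=
  {c | Nat.card (Sel2H (E c.1 c.2)) = 8 ∧ rank c ≤ 1 ∧
    2 ^ rank c * Nat.card {x : Sha (E c.1 c.2) // x + x = 0} = 2 ∧
    HasRootNumber (E c.1 c.2) (-1)}

lemma zero_of {M : ℕ} {α β : ℤ} {c : ℤ × ℤ} (hD : 4 * c.1 ^ 3 + 27 * c.2 ^ 2 ≠ 0)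
    (hT : ∃ f : ZMod 2 × ZMod 2 →+ (E c.1 c.2).toAffine.Point, Function.Injective f)
    (h : Pool.Agent.K1H6.LC.TL 0 M α β c) : c ∈ Class M α β ∩ RankZero := by
  have hT' := Pool.Agent.W307.RT.tors_iff.2 hT
  obtain ⟨h1, h2, h3, h4⟩ := h
  obtain ⟨⟨-, g1⟩, ⟨-, g2⟩, -⟩ := Pool.Agent.Y667.SX.sx_of hD hT' h2 h3
  rw [pow_zero] at g2 h4
  have g3 := mul_eq_one.1 g2
  refine ⟨h1, g1.trans (by norm_num), ?_, g3.2, h4⟩
  have : (2 : ℕ) ^ rank c = 1 := g3.1
  rcases Nat.pow_eq_one.1 this with h | h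
  · omega
  · exact h

lemma one_of {M : ℕ} {α β : ℤ} {c : ℤ × ℤ} (hD : 4 * c.1 ^ 3 + 27 * c.2 ^ 2 ≠ 0)
    (hT : ∃ f : ZMod 2 × ZMod 2 →+ (E c.1 c.2).toAffine.Point, Function.Injective f)
    (h : Pool.Agent.K1H6.LC.TL 1 M α β c) : c ∈ Class M α β ∩ RankOne := by
  have hT' := Pool.Agent.W307.RT.tors_iff.2 hT
  obtain ⟨h1, h2, h3, h4⟩ := h
  obtain ⟨⟨-, g1⟩, ⟨-, g2⟩, -⟩ := Pool.Agent.Y667.SX.sx_of hD hT' h2 h3
  rw [pow_one] at g2 h4
  have g3 : 2 ^ rank c * Nat.card {x : Sha (E c.1 c.2) // x + x = 0} = 2 := g2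
  refine ⟨h1, g1.trans (by norm_num), ?_, g3, h4⟩
  have g4 : 2 ^ rank c ≤ 2 ^ 1 := Nat.le_of_dvd (by norm_num) ⟨_, g3.symm⟩
  exact (Nat.pow_le_pow_iff_right (by norm_num)).1 g4

lemma FamH_eq (H : ℕ) : Fam HeightLe H = (Pool.Agent.W307.RT.Cv 2 H : Set (ℤ × ℤ)) := by
  classical
  ext c
  have h : Pool.Agent.W307.RT.HasT 2 (Pool.Agent.W307.RT.Sh c.1 c.2) ↔
    ∃ f : ZMod 2 × ZMod 2 →+ (E c.1 c.2).toAffine.Point, Function.Injective f :=
    Pool.Agent.W307.RT.tors_iff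
  unfold Fam HeightLe Pool.Agent.W307.RT.Cv
  rw [Set.mem_ofPred_eq, mem_coe, mem_filter, h, mem_product, mem_Icc, mem_Icc]
  constructor
  · rintro ⟨h1, h2, h3, h4, h5⟩
    refine ⟨⟨?_, ?_⟩, h1, h4, h5, h2, h3⟩
    · rw [← abs_le]
      have h0 := abs_nonneg c.1
      rcases eq_or_lt_of_le h0 with h6 | h6
      · rw [← h6]; positivity
      · have : 1 ≤ |c.1| := h6
        nlinarith [mul_nonneg h0 h0, mul_self_nonneg (|c.1| - 1)]
    · rw [← abs_le]
      have h0 := abs_nonneg c.2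
      rw [← sq_abs] at h5
      rcases eq_or_lt_of_le h0 with h6 | h6
      · rw [← h6]; positivity
      · have : 1 ≤ |c.2| := h6
        nlinarith
  · rintro ⟨-, h1, h4, h5, h2, h3⟩
    exact ⟨h1, h2, h3, h4, h5⟩

lemma FamD_eq (D : ℕ) : Fam DiscLe D = (Pool.Agent.TH344.DS.Dv D : Set (ℤ × ℤ)) := by
  classical
  have h0 : Fam DiscLe D = Pool.Agent.W307.RS.DvS 2 D := by
    ext c
    have h : Pool.Agent.W307.RT.HasT 2 (Pool.Agent.W307.RT.Sh c.1 c.2) ↔
        ∃ f : ZMod 2 × ZMod 2 →+ (E c.1 c.2).toAffine.Point, Function.Injective f :=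
      Pool.Agent.W307.RT.tors_iff
    unfold Fam Pool.Agent.W307.RS.DvS
    rw [Set.mem_ofPred_eq, Set.mem_ofPred_eq, h]
    exact Iff.rfl
  rw [h0]
  unfold Pool.Agent.TH344.DS.Dv
  rw [dif_pos (Pool.Agent.TH344.DS.excd.1 D), Set.Finite.coe_toFinset]

/-- The number of these curves tends to infinity (ordering by height). -/
lemma tendstoH : Tendsto (fun Z : ℕ => (Fam HeightLe Z).ncard) atTop atTop := by
  simp only [FamH_eq, Set.ncard_coe_finset]
  exact Pool.Agent.W307.RT.tendsto_of_low Pool.Agent.W672.FK.lowf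

/-- The number of these curves tends to infinity (ordering by the minimal discriminant). -/
lemma tendstoD : Tendsto (fun Z : ℕ => (Fam DiscLe Z).ncard) atTop atTop := by
  have h1 := Pool.Agent.W307.RT.tendsto_of_low Pool.Agent.W672.FK.lowf
  have h2 : Tendsto (fun D : ℕ => (Pool.Agent.W307.RT.Cv 2 (D / 32)).card) atTop atTop :=
    h1.comp (Nat.tendsto_div_const_atTop (by norm_num))
  obtain ⟨hD1, hD2, hD3⟩ := Pool.Agent.TH344.DS.excd
  refine tendsto_atTop_mono (fun D => ?_) h2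
  have h3 : (Pool.Agent.TH344.DS.Dv D : Set (ℤ × ℤ)) = Pool.Agent.W307.RS.DvS 2 D := by
    unfold Pool.Agent.TH344.DS.Dv
    rw [dif_pos (hD1 D), Set.Finite.coe_toFinset]
  rw [FamD_eq, h3, ← Set.ncard_coe_finset]
  exact Set.ncard_le_ncard (Pool.Agent.W307.RS.Cv_sub Pool.Agent.W554.RS.mdl 2 (D / 32) D
    (Nat.mul_div_le D 32)) (hD1 D)

/-- the property without the size -/
def Pr (c : ℤ × ℤ) : Prop := 4 * c.1 ^ 3 + 27 * c.2 ^ 2 ≠ 0 ∧
    (∀ p : ℕ, p.Prime → ¬ ((p : ℤ) ^ 4 ∣ c.1 ∧ (p : ℤ) ^ 6 ∣ c.2)) ∧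
    (∃ g : ZMod 2 × ZMod 2 →+ (E c.1 c.2).toAffine.Point, Function.Injective g)

lemma good : Pool.Agent.Y679.Cr.Good Pr := by
  classical
  refine ⟨fun c hc => ⟨?_, ?_⟩, fun H c hc => ?_, Pool.Agent.W672.FK.lowf⟩
  · exact Pool.Agent.Y679.Cr.isMin_of hc.1 hc.2.1
  · exact Pool.Agent.Y679.Cr.full_of (Pool.Agent.W307.RT.tors_iff.2 hc.2.2)
  · unfold Pool.Agent.W307.RT.Cv at hc
    obtain ⟨-, h1, -, -, h2, h3⟩ := mem_filter.1 hc
    exact ⟨h1, h2, Pool.Agent.W307.RT.tors_iff.1 h3⟩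

lemma cond_eq (c : ℤ × ℤ) : Pool.Agent.Y679.Cr.cs c = Cond6 c := by
  unfold Pool.Agent.Y679.Cr.cs Pool.Agent.H925R.Szpiro.condS Cond6
  rw [Pool.Agent.Y679.Cr.D_neg, Int.natAbs_neg]
  refine prod_congr rfl fun p _ => ?_
  by_cases h : (p : ℤ) ∣ c.1
  · rw [if_pos h, if_pos (Int.dvd_neg.2 h)]
  · rw [if_neg h, if_neg fun h' => h (Int.dvd_neg.1 h')]

lemma bdd {f : ℤ × ℤ → ℕ} (hf : Factor f) : Pool.Agent.Y679.Cr.Bdd f :=
  fun c => ⟨(hf c).1, (hf c).2.trans (by norm_num)⟩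

lemma FamC_eq (f : ℤ × ℤ → ℕ) (Z : ℕ) : Fam (CondLe f) Z = Pool.Agent.Y679.Cr.Gm Pr f Z := by
  ext c
  unfold Fam CondLe Pool.Agent.Y679.Cr.Gm
  rw [Set.mem_ofPred_eq, Set.mem_ofPred_eq, cond_eq]
  exact ⟨fun h => ⟨⟨h.1, h.2.1, h.2.2.1⟩, h.2.2.2⟩, fun h => ⟨h.1.1, h.1.2.1, h.1.2.2, h.2⟩⟩

/-- from the height to the three orderings -/
lemma three_orderings (T : ℤ × ℤ → Prop) (S : Set (ℤ × ℤ)) (hTS : ∀ c, Pr c → T c → c ∈ S)
    (h : open Classical in ∃ c : ℝ, 0 < c ∧ ∃ H0 : ℕ, ∀ H : ℕ, H0 ≤ H →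
      c * ((Pool.Agent.W307.RT.Cv 2 H).card : ℝ) ≤
        (((Pool.Agent.W307.RT.Cv 2 H).filter T).card : ℝ)) :
    ∃ δ : ℝ, 0 < δ ∧ ∀ I, Ordering3 I → ∀ᶠ Z : ℕ in atTop, δ ≤ proportion I S Z := by
  classical
  have h0 : ∃ c : ℝ, 0 < c ∧ ∃ H0 : ℕ, ∀ H : ℕ, H0 ≤ H →
      c * ((Pool.Agent.W307.RT.Cv 2 H).card : ℝ) ≤
        (((Pool.Agent.W307.RT.Cv 2 H).filter T).card : ℝ) := by
    obtain ⟨c, hc, H0, h⟩ := h
    refine ⟨c, hc, H0, fun H hH => (h H hH).trans (Nat.cast_le.2 (card_le_card fun k hk => ?_))⟩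
    rw [mem_filter] at hk ⊢
    exact hk
  obtain ⟨c1, hc1, H1, h1⟩ := h0
  obtain ⟨c2, hc2, H2, h2⟩ := Pool.Agent.Y667.RP.disc_of_height T ⟨c1, hc1, H1, h1⟩
  obtain ⟨c3, hc3, h3⟩ := Pool.Agent.Y679.Cr.pos good (T := T) (by
    refine ⟨c1, hc1, H1, fun H hH => ⟨_, fun k hk => ?_, h1 H hH⟩⟩
    exact mem_filter.1 (mem_coe.1 hk))
  refine ⟨min c1 (min c2 c3), lt_min hc1 (lt_min hc2 hc3), fun I hI => ?_⟩
  rcases hI with rfl | rfl | ⟨f, hf, rfl⟩
  · filter_upwards [eventually_ge_atTop H1, tendstoH.eventually_ge_atTop 1] with H hH hH1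
    refine (min_le_left _ _).trans ?_
    unfold proportion
    rw [le_div_iff₀ (by exact_mod_cast hH1)]
    have e1 : (Fam HeightLe H).ncard = (Pool.Agent.W307.RT.Cv 2 H).card := by
      rw [FamH_eq, Set.ncard_coe_finset]
    rw [e1]
    refine (h1 H hH).trans (Nat.cast_le.2 ?_)
    rw [← Set.ncard_coe_finset]
    refine Set.ncard_le_ncard (fun k hk => ?_) (Set.Finite.inter_of_left (by
      rw [FamH_eq]
      exact finite_toSet _) _)
    rw [mem_coe, mem_filter] at hk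
    have hk1 : k ∈ Fam HeightLe H := by
      rw [FamH_eq, mem_coe]
      exact hk.1
    exact ⟨hk1, hTS k ⟨hk1.1, hk1.2.1, hk1.2.2.1⟩ hk.2⟩
  · filter_upwards [eventually_ge_atTop H2, tendstoD.eventually_ge_atTop 1] with H hH hH1
    refine ((min_le_right _ _).trans (min_le_left _ _)).trans ?_
    unfold proportion
    rw [le_div_iff₀ (by exact_mod_cast hH1)]
    have e1 : (Fam DiscLe H).ncard = (Pool.Agent.TH344.DS.Dv H).card := by
      rw [FamD_eq, Set.ncard_coe_finset]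
    rw [e1]
    refine (h2 H hH).trans (Nat.cast_le.2 ?_)
    rw [← Set.ncard_coe_finset]
    refine Set.ncard_le_ncard (fun k hk => ?_) (Set.Finite.inter_of_left (by
      rw [FamD_eq]
      exact finite_toSet _) _)
    rw [mem_coe, mem_filter] at hk
    have hk1 : k ∈ Fam DiscLe H := by
      rw [FamD_eq, mem_coe]
      exact hk.1
    exact ⟨hk1, hTS k ⟨hk1.1, hk1.2.1, hk1.2.2.1⟩ hk.2⟩
  · filter_upwards [h3 f (bdd hf)] with Z hZ
    refine ((min_le_right _ _).trans (min_le_right _ _)).trans (hZ.trans ?_)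
    unfold proportion
    rw [FamC_eq]
    refine div_le_div_of_nonneg_right (Nat.cast_le.2 (Set.ncard_le_ncard ?_
      ((Pool.Agent.Y679.Cr.Gm_fin good (bdd hf) Z).subset Set.inter_subset_left)))
      (Nat.cast_nonneg _)
    rintro k ⟨h4, h5⟩
    exact ⟨h4, hTS k h4.1 h5⟩

/-- **Theorem.** Order the elliptic curves over `ℚ` with full rational 2-torsion by the naive height,
by the absolute value of the minimal discriminant or by the conductor (`Ordering3`). There are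
finitely many curves of size at most `Z` and their number tends to infinity with `Z`. For every odd
`M` and all `α`, `β` such that `α β (α - β)` is prime to `M`: a positive proportion of the curves has
the reductions at the primes of `M` prescribed by the classes `α`, `β` modulo `M`, a 2-Selmer group
of order 4, rank 0, trivial `Ш(E)[2]` and root number `+1`; and a positive proportion has the same
reductions, a 2-Selmer group of order 8, rank at most 1 and root number `-1`. The lower bound `δ` of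
the lower densities does not depend on the ordering. -/
theorem result :
    (∀ I, Ordering3 I → (∀ Z : ℕ, (Fam I Z).Finite) ∧
      Tendsto (fun Z : ℕ => (Fam I Z).ncard) atTop atTop) ∧
    ∀ (M : ℕ) (α β : ℤ), Odd M → IsCoprime (α * β * (α - β)) (M : ℤ) →
      ∃ δ : ℝ, 0 < δ ∧ ∀ I, Ordering3 I → ∀ᶠ Z : ℕ in atTop,
        δ ≤ proportion I (Class M α β ∩ RankZero) Z ∧
        δ ≤ proportion I (Class M α β ∩ RankOne) Z := by
  classical
  constructor
  · rintro I (rfl | rfl | ⟨f, hf, rfl⟩)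
    · refine ⟨fun Z => ?_, tendstoH⟩
      rw [FamH_eq]
      exact finite_toSet _
    · refine ⟨fun Z => ?_, tendstoD⟩
      rw [FamD_eq]
      exact finite_toSet _
    · constructor
      · intro Z
        rw [FamC_eq]
        exact Pool.Agent.Y679.Cr.Gm_fin good (bdd hf) Z
      · simp only [FamC_eq]
        exact Pool.Agent.Y679.Cr.Gm_tendsto good (bdd hf)
  · intro M α β hM hαβ
    obtain ⟨δ0, hδ0, h0⟩ := three_orderings (Pool.Agent.K1H6.LC.TL 0 M α β)
      (Class M α β ∩ RankZero) (fun c hc h => zero_of hc.1 hc.2.2 h) (by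
        obtain ⟨c, hc, H0, h⟩ := Pool.Agent.K1H6.LC.curvesL hM hαβ (r := 0) (Or.inl rfl)
        exact ⟨c, hc, H0, h⟩)
    obtain ⟨δ1, hδ1, h1⟩ := three_orderings (Pool.Agent.K1H6.LC.TL 1 M α β)
      (Class M α β ∩ RankOne) (fun c hc h => one_of hc.1 hc.2.2 h) (by
        obtain ⟨c, hc, H0, h⟩ := Pool.Agent.K1H6.LC.curvesL hM hαβ (r := 1) (Or.inr rfl)
        exact ⟨c, hc, H0, h⟩)
    refine ⟨min δ0 δ1, lt_min hδ0 hδ1, fun I hI => ?_⟩
    filter_upwards [h0 I hI, h1 I hI] with Z hZ0 hZ1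
    exact ⟨(min_le_left _ _).trans hZ0, (min_le_right _ _).trans hZ1⟩

end Pool.Agent.Results.MP_6073f3_nt.PrescribedReductions
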