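import Pool.Agent.K1H81.RN.Iso

/-!
# The root numbers of the semistable elliptic curves with full rational 2-torsion are equidistributed

For each of the three orderings of the problem (naive height, minimal discriminant, conductor) the
root number is `+1` for asymptotically one half and `-1` for asymptotically one half of the semistable
elliptic curves over `ℚ` with full rational 2-torsion; the same holds in every residue class of the
minimal invariants `(c₄, c₆)` modulo `m` which contains such a curve.

Tools from the library: `Helper245.MobAP` (the Möbius function in arithmetic progressions, from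
Siegel-Walfisz), the count of points of a nodal cubic, the integrality of the 2-division points
(`H925R.Szpiro.Semi`), and, for the ordering by conductor only, `Y679.Par.Ml_le` (few curves with full
2-torsion have a discriminant much larger than the square of the conductor). The cancellation in the
root numbers (helper files `Pool/Agent/K1H81/RN/*`) is proved here.
-/

set_option autoImplicit false

namespace Pool.Agent.Results.MP_6073f3_nt.SemistableRootNumbers

open Finset Filter Topology

/-- `p + 1 - #W(𝔽_p)`, that is `p` minus the number of the affine solutions modulo `p` -/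
noncomputable def ap (W : WeierstrassCurve ℤ) (p : ℕ) : ℤ :=
  p - Nat.card {z : ZMod p × ZMod p // z.2 ^ 2 + W.a₁ * z.1 * z.2 + W.a₃ * z.2 =
    z.1 ^ 3 + W.a₂ * z.1 ^ 2 + W.a₄ * z.1 + W.a₆}

/-- The integral Weierstrass equation `W` is semistable at every prime (so it is globally minimal).
Every semistable elliptic curve over `ℚ` has such an equation. -/
def Semistable (W : WeierstrassCurve ℤ) : Prop :=
  W.Δ ≠ 0 ∧ ∀ p : ℕ, p.Prime → (p : ℤ) ∣ W.Δ → ¬ (p : ℤ) ∣ W.c₄

/-- all the 2-torsion points are rational: the 2-division polynomial has three rational roots -/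
def Full (W : WeierstrassCurve ℤ) : Prop :=
  ∃ r₁ r₂ r₃ : ℚ, ∀ x : ℚ,
    4 * x ^ 3 + W.b₂ * x ^ 2 + 2 * W.b₄ * x + W.b₆ = 4 * (x - r₁) * (x - r₂) * (x - r₃)

/-- the conductor of a semistable curve -/
def cond (W : WeierstrassCurve ℤ) : ℕ := ∏ p ∈ W.Δ.natAbs.primeFactors, p

/-- The root number of a semistable curve: the product of the local root numbers, which are `-1` at
infinity and `-a_p` at the primes of bad (multiplicative) reduction. -/
noncomputable def rootNumber (W : WeierstrassCurve ℤ) : ℤ :=
  -∏ p ∈ W.Δ.natAbs.primeFactors, (-ap W p)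

/-- The naive height: the least value of `max (4|A|³, 27B²)` over the integral short equations
`y² = x³ + A x + B` of the curve. -/
noncomputable def height (W : WeierstrassCurve ℤ) : ℕ :=
  sInf {h : ℕ | ∃ A B : ℤ, (∃ C : WeierstrassCurve.VariableChange ℚ,
    C • (W.map (Int.castRingHom ℚ)) = (⟨0, 0, 0, (A : ℚ), (B : ℚ)⟩ : WeierstrassCurve ℚ)) ∧
      h = max (4 * A.natAbs ^ 3) (27 * B.natAbs ^ 2)}

/-- The isomorphism classes over `ℚ` of the semistable elliptic curves with full rational 2-torsion, of
size at most `Z` for the size function `H`, whose minimal invariants satisfy `c₄ ≡ r`, `c₆ ≡ s`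
modulo `m`, and whose root number satisfies `P`. A class is given by its pair `(c₄, c₆)`, see the first
part of `result`. -/
def Fam (H : WeierstrassCurve ℤ → ℕ) (m : ℕ) (r s : ℤ) (P : ℤ → Prop) (Z : ℕ) : Set (ℤ × ℤ) :=
  {z | ∃ W : WeierstrassCurve ℤ, Semistable W ∧ Full W ∧ H W ≤ Z ∧ W.c₄ ≡ r [ZMOD m] ∧
    W.c₆ ≡ s [ZMOD m] ∧ P (rootNumber W) ∧ z = (W.c₄, W.c₆)}

/-- (1) Two semistable equations with full rational 2-torsion define isomorphic curves over `ℚ` if and
only if they have the same `(c₄, c₆)`, and then they have the same root number, height, discriminant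
and conductor. (2) Let the size `H` be the naive height, the absolute value of the minimal
discriminant, or the conductor. For all `m > 0`, `r`, `s` such that some curve satisfies `c₄ ≡ r`,
`c₆ ≡ s` modulo `m` (in particular for `m = 1`), there are finitely many classes of size at most `Z`
with these congruences, their number tends to infinity with `Z`, and the proportion of those with root
number `e` tends to `1 / 2`, for `e = 1` and for `e = -1`. -/
theorem result :
    (∀ W W' : WeierstrassCurve ℤ, Semistable W → Full W → Semistable W' → Full W' →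
      (((∃ C : WeierstrassCurve.VariableChange ℚ,
        C • (W.map (Int.castRingHom ℚ)) = W'.map (Int.castRingHom ℚ)) ↔
        (W.c₄ = W'.c₄ ∧ W.c₆ = W'.c₆)) ∧
      (W.c₄ = W'.c₄ → W.c₆ = W'.c₆ → rootNumber W = rootNumber W' ∧ height W = height W' ∧
        W.Δ = W'.Δ ∧ cond W = cond W'))) ∧
    (∃ W : WeierstrassCurve ℤ, Semistable W ∧ Full W) ∧
    ∀ H : WeierstrassCurve ℤ → ℕ, (H = height ∨ H = (fun W => W.Δ.natAbs) ∨ H = cond) →
      ∀ (m : ℕ) (r s : ℤ), 0 < m →
      (∃ W : WeierstrassCurve ℤ, Semistable W ∧ Full W ∧ W.c₄ ≡ r [ZMOD m] ∧ W.c₆ ≡ s [ZMOD m]) →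
      (∀ Z, (Fam H m r s (fun _ => True) Z).Finite) ∧
      Tendsto (fun Z => (Fam H m r s (fun _ => True) Z).ncard) atTop atTop ∧
      ∀ e : ℤ, e = 1 ∨ e = -1 →
        Tendsto (fun Z => ((Fam H m r s (fun w => w = e) Z).ncard : ℝ) /
          ((Fam H m r s (fun _ => True) Z).ncard : ℝ)) atTop (𝓝 (1 / 2)) :=
  ⟨fun _ _ hs hf hs' hf' => ⟨Pool.Agent.K1H81.RN.iso_iff hs hf hs' hf',
    fun g4 g6 => Pool.Agent.K1H81.RN.invariant hs hf hs' hf' g4 g6⟩,
    Pool.Agent.K1H81.RN.nonempty,
    fun _ hH _ _ _ hm hex => Pool.Agent.K1H81.RN.main hH hm hex⟩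

end Pool.Agent.Results.MP_6073f3_nt.SemistableRootNumbers
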