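import Pool.Agent.K1H81.T3.ANA3
import Pool.Agent.K1H81.T3.BAD3
import Pool.Agent.K1H81.T3.COR31
import Pool.Agent.K1H81.T3.COR32
import Pool.Agent.K1H81.T3.FA3
import Pool.Agent.K1H81.T3.FB3
import Pool.Agent.K1H81.T3.HGT3
import Pool.Agent.K1H81.T3.INV3
import Pool.Agent.K1H81.T3.LOW3
import Pool.Agent.K1H81.T3.PAR3
import Pool.Agent.K1H81.T3.REG3
import Pool.Agent.K1H81.T3.WEYL3
import Pool.Agent.K1H81.T3.WRT3b
import Pool.Agent.K1H81.T3.INJ3
import Pool.Agent.K1H81.TT.AP
import Pool.Agent.K1H81.TT.DAV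
import Pool.Agent.K1H81.TT.ISO

/-!
# The root numbers of the semistable elliptic curves with a rational point of order three

Ordered by naive height, asymptotically one half of the semistable elliptic curves over `ℚ` with a
rational point of order three have root number `+1`, and one half `-1`.

The curves are `y² + a x y + c y = x³`, `(a, 3c) = 1`, and the root number is
`- ∏_{p ∣ c} (-1) ∏_{p ∣ a³ - 27c} (-(p/3))`; what has to be shown is that `μ(c) μ(a³ - 27 c)` cancels on
average over `a` and `c`. This is done by the circle method (Davenport's estimate and the inverse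
theorem for cubic Weyl sums are taken from the library; everything else is proved in
`Pool/Agent/K1H81/T3/*` and `Pool/Agent/K1H81/TT/*`).
-/

set_option autoImplicit false

namespace Pool.Agent.Results.MP_6073f3_nt.ThreeTorsionRootNumbers

open Finset Filter Topology

/-- `p + 1 - #W(𝔽_p)`, that is `p` minus the number of the affine solutions modulo `p` -/
noncomputable def ap (W : WeierstrassCurve ℤ) (p : ℕ) : ℤ :=
  p - Nat.card {z : ZMod p × ZMod p // z.2 ^ 2 + W.a₁ * z.1 * z.2 + W.a₃ * z.2 =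
    z.1 ^ 3 + W.a₂ * z.1 ^ 2 + W.a₄ * z.1 + W.a₆}

/-- The integral Weierstrass equation `W` is semistable at every prime (so it is globally minimal).
Every semistable elliptic curve over `ℚ` has such an equation. -/
def Semistable (W : WeierstrassCurve ℤ) : Prop :=
  W.Δ ≠ 0 ∧ ∀ p : ℕ, p.Prime → (p : ℤ) ∣ W.Δ → ¬ (p : ℤ) ∣ W.c₄

/-- there is a rational point of order three: a rational point of the curve whose abscissa is a root
of the 3-division polynomial -/
def ThreeTors (W : WeierstrassCurve ℤ) : Prop :=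
  ∃ x y : ℚ, y ^ 2 + W.a₁ * x * y + W.a₃ * y = x ^ 3 + W.a₂ * x ^ 2 + W.a₄ * x + W.a₆ ∧
    3 * x ^ 4 + W.b₂ * x ^ 3 + 3 * W.b₄ * x ^ 2 + 3 * W.b₆ * x + W.b₈ = 0

/-- The root number of a semistable curve: the product of the local root numbers, which are `-1` at
infinity and `-a_p` at the primes of bad (multiplicative) reduction. -/
noncomputable def rootNumber (W : WeierstrassCurve ℤ) : ℤ :=
  -∏ p ∈ W.Δ.natAbs.primeFactors, (-ap W p)

/-- The naive height: the least value of `max (4|A|³, 27B²)` over the integral short equations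
`y² = x³ + A x + B` of the curve. -/
noncomputable def height (W : WeierstrassCurve ℤ) : ℕ :=
  sInf {h : ℕ | ∃ A B : ℤ, (∃ C : WeierstrassCurve.VariableChange ℚ,
    C • (W.map (Int.castRingHom ℚ)) = (⟨0, 0, 0, (A : ℚ), (B : ℚ)⟩ : WeierstrassCurve ℚ)) ∧
      h = max (4 * A.natAbs ^ 3) (27 * B.natAbs ^ 2)}

/-- The isomorphism classes over `ℚ` of the semistable elliptic curves with a rational point of order
three, of height at most `Z`, whose root number satisfies `P`. A class is given by its pair of minimal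
invariants `(c₄, c₆)`, see the first part of `result`. -/
def Fam (P : ℤ → Prop) (Z : ℕ) : Set (ℤ × ℤ) :=
  {z | ∃ W : WeierstrassCurve ℤ, Semistable W ∧ ThreeTors W ∧ height W ≤ Z ∧ P (rootNumber W) ∧
    z = (W.c₄, W.c₆)}

/-- (1) Two semistable equations with a rational point of order three define isomorphic curves over `ℚ`
if and only if they have the same `(c₄, c₆)`, and then they have the same root number and height.
(2) There are finitely many classes of height at most `Z`, their number tends to infinity with `Z`, and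
the proportion of those with root number `e` tends to `1 / 2`, for `e = 1` and for `e = -1`. -/
theorem result :
    (∀ W W' : WeierstrassCurve ℤ, Semistable W → ThreeTors W → Semistable W' → ThreeTors W' →
      (((∃ C : WeierstrassCurve.VariableChange ℚ,
        C • (W.map (Int.castRingHom ℚ)) = W'.map (Int.castRingHom ℚ)) ↔
        (W.c₄ = W'.c₄ ∧ W.c₆ = W'.c₆)) ∧
      (W.c₄ = W'.c₄ → W.c₆ = W'.c₆ → rootNumber W = rootNumber W' ∧ height W = height W'))) ∧
    (∀ Z, (Fam (fun _ => True) Z).Finite) ∧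
    Tendsto (fun Z => (Fam (fun _ => True) Z).ncard) atTop atTop ∧
    ∀ e : ℤ, e = 1 ∨ e = -1 →
      Tendsto (fun Z => ((Fam (fun w => w = e) Z).ncard : ℝ) / ((Fam (fun _ => True) Z).ncard : ℝ))
        atTop (𝓝 (1 / 2)) := by
  have hW := Pool.Agent.K1H81.T3.t_WRT3' Pool.Agent.K1H81.TT.t_AP
  have hFIN : Pool.Agent.K1H81.T3.S_FIN3 :=
    Pool.Agent.K1H81.T3.t_FB3
      (Pool.Agent.K1H81.T3.t_FA3 Pool.Agent.K1H81.T3.t_PAR3 Pool.Agent.K1H81.T3.t_CONV3 hW
        Pool.Agent.K1H81.T3.t_HGT3 Pool.Agent.K1H81.T3.t_INJ3' Pool.Agent.K1H81.T3.t_BOX3)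
      (Pool.Agent.K1H81.T3.t_ANA3 (Pool.Agent.K1H81.T3.t_REG3 Pool.Agent.K1H81.T3.t_BOX3)
        Pool.Agent.K1H81.T3.t_BAD3 Pool.Agent.K1H81.T3.t_INV3
        (Pool.Agent.K1H81.T3.t_COR32
          (Pool.Agent.K1H81.T3.t_COR31 Pool.Agent.K1H81.TT.t_DAV Pool.Agent.K1H81.T3.t_WEYL3)))
      Pool.Agent.K1H81.T3.t_LOW3
  refine ⟨fun W W' hs ht hs' ht' => ⟨Pool.Agent.K1H81.TT.t_ISO W W' hs hs', fun h4 h6 => ?_⟩, hFIN⟩
  obtain ⟨a, c, -, hA, e4, e6⟩ := Pool.Agent.K1H81.T3.t_PAR3 W hs ht
  constructor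
  · have r1 := (hW W a c hs hA e4 e6).2
    have r2 := (hW W' a c hs' hA (h4 ▸ e4) (h6 ▸ e6)).2
    exact r1.trans r2.symm
  · have u := Pool.Agent.K1H81.T3.t_HGT3 W a c hs hA e4 e6
    have v := Pool.Agent.K1H81.T3.t_HGT3 W' a c hs' hA (h4 ▸ e4) (h6 ▸ e6)
    rw [← h4, ← h6] at v
    exact u.trans v.symm

end Pool.Agent.Results.MP_6073f3_nt.ThreeTorsionRootNumbers
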