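import Pool.Agent.K1H81.TT.ANA
import Pool.Agent.K1H81.TT.AP
import Pool.Agent.K1H81.TT.BAD
import Pool.Agent.K1H81.TT.COR1
import Pool.Agent.K1H81.TT.COR2
import Pool.Agent.K1H81.TT.DAV
import Pool.Agent.K1H81.TT.FB
import Pool.Agent.K1H81.TT.HGT
import Pool.Agent.K1H81.TT.ISO
import Pool.Agent.K1H81.TT.Inv
import Pool.Agent.K1H81.TT.LOW
import Pool.Agent.K1H81.TT.PAR
import Pool.Agent.K1H81.TT.REC
import Pool.Agent.K1H81.TT.REG
import Pool.Agent.K1H81.TT.WEYL
import Pool.Agent.K1H81.TT.WRT
import Pool.Agent.K1H36.TT.Fa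

/-!
# The root numbers of the semistable elliptic curves with a rational point of order two

Ordered by naive height, asymptotically one half of the semistable elliptic curves over `ℚ` with a
rational point of order two have root number `+1`, and one half `-1`.

The curves are `y² = x (x² + A x + 16 D)` and their 2-isogenous curves, `A ≡ 1` mod 4, `(A, D) = 1`. By
quadratic reciprocity the Legendre symbols in the root number cancel, up to finitely many primes, and
what is left is `μ(D) μ(A² - 64 D)`. These correlations of the Möbius function along the shifts by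
squares cancel on average over `A` by the circle method (Davenport's estimate and the inverse theorem
for quadratic Weyl sums are taken from the library; everything else is proved in
`Pool/Agent/K1H81/TT/*` and `Pool/Agent/K1H36/TT/Fa.lean`).
-/

set_option autoImplicit false

namespace Pool.Agent.Results.MP_6073f3_nt.TwoTorsionRootNumbers

open Finset Filter Topology

/-- `p + 1 - #W(𝔽_p)`, that is `p` minus the number of the affine solutions modulo `p` -/
noncomputable def ap (W : WeierstrassCurve ℤ) (p : ℕ) : ℤ :=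
  p - Nat.card {z : ZMod p × ZMod p // z.2 ^ 2 + W.a₁ * z.1 * z.2 + W.a₃ * z.2 =
    z.1 ^ 3 + W.a₂ * z.1 ^ 2 + W.a₄ * z.1 + W.a₆}

/-- The integral Weierstrass equation `W` is semistable at every prime (so it is globally minimal).
Every semistable elliptic curve over `ℚ` has such an equation. -/
def Semistable (W : WeierstrassCurve ℤ) : Prop :=
  W.Δ ≠ 0 ∧ ∀ p : ℕ, p.Prime → (p : ℤ) ∣ W.Δ → ¬ (p : ℤ) ∣ W.c₄

/-- there is a rational point of order two: the 2-division polynomial has a rational root -/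
def TwoTors (W : WeierstrassCurve ℤ) : Prop :=
  ∃ r : ℚ, 4 * r ^ 3 + W.b₂ * r ^ 2 + 2 * W.b₄ * r + W.b₆ = 0

/-- The root number of a semistable curve: the product of the local root numbers, which are `-1` at
infinity and `-a_p` at the primes of bad (multiplicative) reduction. -/
noncomputable def rootNumber (W : WeierstrassCurve ℤ) : ℤ :=
  -∏ p ∈ W.Δ.natAbs.primeFactors, (-ap W p)

/-- The naive height: the least value of `max (4|A|³, 27B²)` over the integral short equations
`y² = x³ + A x + B` of the curve. -/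
noncomputable def height (W : WeierstrassCurve ℤ) : ℕ :=
  sInf {h : ℕ | ∃ A B : ℤ, (∃ C : WeierstrassCurve.VariableChange ℚ,
    C • (W.map (Int.castRingHom ℚ)) = (⟨0, 0, 0, (A : ℚ), (B : ℚ)⟩ : WeierstrassCurve ℚ)) ∧
      h = max (4 * A.natAbs ^ 3) (27 * B.natAbs ^ 2)}

/-- The isomorphism classes over `ℚ` of the semistable elliptic curves with a rational point of order
two, of height at most `Z`, whose root number satisfies `P`. A class is given by its pair of minimal
invariants `(c₄, c₆)`, see the first part of `result`. -/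
def Fam (P : ℤ → Prop) (Z : ℕ) : Set (ℤ × ℤ) :=
  {z | ∃ W : WeierstrassCurve ℤ, Semistable W ∧ TwoTors W ∧ height W ≤ Z ∧ P (rootNumber W) ∧
    z = (W.c₄, W.c₆)}

/-- (1) Two semistable equations with a rational point of order two define isomorphic curves over `ℚ`
if and only if they have the same `(c₄, c₆)`, and then they have the same root number and height.
(2) There are finitely many classes of height at most `Z`, their number tends to infinity with `Z`, and
the proportion of those with root number `e` tends to `1 / 2`, for `e = 1` and for `e = -1`. -/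
theorem result :
    (∀ W W' : WeierstrassCurve ℤ, Semistable W → TwoTors W → Semistable W' → TwoTors W' →
      (((∃ C : WeierstrassCurve.VariableChange ℚ,
        C • (W.map (Int.castRingHom ℚ)) = W'.map (Int.castRingHom ℚ)) ↔
        (W.c₄ = W'.c₄ ∧ W.c₆ = W'.c₆)) ∧
      (W.c₄ = W'.c₄ → W.c₆ = W'.c₆ → rootNumber W = rootNumber W' ∧ height W = height W'))) ∧
    (∀ Z, (Fam (fun _ => True) Z).Finite) ∧
    Tendsto (fun Z => (Fam (fun _ => True) Z).ncard) atTop atTop ∧
    ∀ e : ℤ, e = 1 ∨ e = -1 →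
      Tendsto (fun Z => ((Fam (fun w => w = e) Z).ncard : ℝ) / ((Fam (fun _ => True) Z).ncard : ℝ))
        atTop (𝓝 (1 / 2)) := by
  have hFIN : Pool.Agent.K1H81.TT.S_FIN :=
    Pool.Agent.K1H81.TT.t_FB
      (Pool.Agent.K1H36.TT.t_FA Pool.Agent.K1H81.TT.t_PAR Pool.Agent.K1H81.TT.t_CONV
        (Pool.Agent.K1H81.TT.t_WRT Pool.Agent.K1H81.TT.t_AP) Pool.Agent.K1H81.TT.t_HGT
        Pool.Agent.K1H81.TT.t_MUL Pool.Agent.K1H81.TT.t_BOX)
      (Pool.Agent.K1H81.TT.t_ANA Pool.Agent.K1H81.TT.t_REG Pool.Agent.K1H81.TT.t_BAD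
        (Pool.Agent.K1H81.TT.t_INV Pool.Agent.K1H81.TT.t_REC)
        (Pool.Agent.K1H81.TT.t_COR2
          (Pool.Agent.K1H81.TT.t_COR1 Pool.Agent.K1H81.TT.t_DAV Pool.Agent.K1H81.TT.t_WEYL)))
      Pool.Agent.K1H81.TT.t_LOW Pool.Agent.K1H81.TT.w_sign
  refine ⟨fun W W' hs ht hs' ht' => ⟨Pool.Agent.K1H81.TT.t_ISO W W' hs hs', fun h4 h6 => ?_⟩, hFIN⟩
  obtain ⟨t, A, D, hA, e4, e6⟩ := Pool.Agent.K1H81.TT.t_PAR W hs ht
  have hodd : ¬ (2 : ℤ) ∣ W.c₄ := by
    rw [e4]
    have h1 := hA.1
    have h2 : A % 2 = 1 := by omega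
    have h3 : A ^ 2 % 2 = 1 := by
      rw [pow_two, Int.mul_emod, h2]; rfl
    unfold Pool.Agent.K1H81.TT.F4
    split_ifs <;> omega
  constructor
  · have r1 := (Pool.Agent.K1H81.TT.t_WRT Pool.Agent.K1H81.TT.t_AP W t A D hs hA e4 e6).2
    have r2 := (Pool.Agent.K1H81.TT.t_WRT Pool.Agent.K1H81.TT.t_AP W' t A D hs' hA
      (h4 ▸ e4) (h6 ▸ e6)).2
    exact r1.trans r2.symm
  · obtain ⟨u1, u2⟩ := Pool.Agent.K1H81.TT.t_HGT W hs hodd
    obtain ⟨v1, v2⟩ := Pool.Agent.K1H81.TT.t_HGT W' hs' (h4 ▸ hodd)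
    rw [← h4, ← h6] at v1 v2
    have : Pool.Agent.K1H81.TT.height W = Pool.Agent.K1H81.TT.height W' := by
      by_cases h3 : (3 : ℤ) ∣ W.c₄
      · have := u1 h3; have := v1 h3; omega
      · exact (u2 h3).trans (v2 h3).symm
    exact this

end Pool.Agent.Results.MP_6073f3_nt.TwoTorsionRootNumbers
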